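import Pool.Agent.helper23.CU.Spec

/-! # Project cu, module FK: the FKG inequality for nested boxes with plus boundary conditions -/

open Finset Filter Topology

namespace CU

section

variable {d n : ℕ} [NeZero n]

theorem FK_edge : ∀ a a' b b' : Bool, (if (a ⊓ b) ≠ (a' ⊓ b') then 1 else 0) +
    (if (a ⊔ b) ≠ (a' ⊔ b') then 1 else 0) ≤
    (if a ≠ a' then 1 else 0) + (if b ≠ b' then (1 : ℕ) else 0) := by
  decide

theorem FK_brk (σ η : Conf d n) :
    (brk (σ ⊓ η)).card + (brk (σ ⊔ η)).card ≤ (brk σ).card + (brk η).card := by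
  unfold brk
  rw [card_filter, card_filter, card_filter, card_filter, ← sum_add_distrib, ← sum_add_distrib]
  exact sum_le_sum fun e _ => FK_edge (σ e.1) (σ (e.1 + ev e.2)) (η e.1) (η (e.1 + ev e.2))

theorem FK_W (β : ℝ) (hβ : 0 ≤ β) (σ η : Conf d n) :
    W β σ * W β η ≤ W β (σ ⊓ η) * W β (σ ⊔ η) := by
  unfold W
  rw [← Real.exp_add, ← Real.exp_add, Real.exp_le_exp, ← mul_add, ← mul_add]
  have h : ((brk (σ ⊓ η)).card : ℝ) + (brk (σ ⊔ η)).card ≤ (brk σ).card + (brk η).card := by
    exact_mod_cast FK_brk σ η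
  nlinarith

theorem FK_pos (β : ℝ) (σ : Conf d n) : 0 < W β σ := Real.exp_pos _

theorem FK_Z (β : ℝ) (D : Finset (Site d n)) : 0 < ∑ σ ∈ PlusOn D, W β σ := by
  refine sum_pos (fun σ _ => FK_pos β σ) ⟨plus, ?_⟩
  simp [PlusOn, plus]

end

theorem FK : FK_stmt := by
  intro d n _ β hβ D B hDB v
  classical
  have hmem : ∀ (D : Finset (Site d n)) (σ : Conf d n), σ ∈ PlusOn D ↔ ∀ x, x ∉ D → σ x = true := by
    intro D σ
    simp [PlusOn]
  have hsub : PlusOn D ⊆ PlusOn B := fun σ hσ =>
    (hmem B σ).2 fun x hx => (hmem D σ).1 hσ x fun h => hx (hDB h)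
  have hsg : ∀ b : Bool, 0 ≤ sg b + 1 := by
    intro b
    cases b <;> simp [sg]
  have hsgm : ∀ b b' : Bool, b ≤ b' → sg b ≤ sg b' := by
    intro b b' h
    cases b <;> cases b'
    · exact le_rfl
    · norm_num [sg]
    · exact absurd h (by decide)
    · exact le_rfl
  have key := fkg (α := Conf d n) (μ := fun σ => if σ ∈ PlusOn B then W β σ else 0)
    (f := fun σ => sg (σ v) + 1) (g := fun σ => if σ ∈ PlusOn D then (1 : ℝ) else 0)
    (fun σ => by
      show (0 : ℝ) ≤ if σ ∈ PlusOn B then W β σ else 0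
      split_ifs
      · exact (FK_pos β σ).le
      · exact le_rfl)
    (fun σ => hsg _)
    (fun σ => by
      show (0 : ℝ) ≤ if σ ∈ PlusOn D then (1 : ℝ) else 0
      split_ifs
      · exact zero_le_one
      · exact le_rfl)
    (fun σ η h => by
      show sg (σ v) + 1 ≤ sg (η v) + 1
      have := hsgm _ _ (h v)
      linarith)
    (fun σ η h => by
      show (if σ ∈ PlusOn D then (1 : ℝ) else 0) ≤ if η ∈ PlusOn D then (1 : ℝ) else 0
      by_cases hσ : σ ∈ PlusOn D
      · have hη : η ∈ PlusOn D := (hmem D η).2 fun x hx => by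
          have h1 := (hmem D σ).1 hσ x hx
          have h2 := h x
          rw [h1] at h2
          exact top_le_iff.1 h2
        rw [if_pos hσ, if_pos hη]
      · rw [if_neg hσ]
        split_ifs
        · exact zero_le_one
        · exact le_rfl)
    (fun σ η => by
      show (if σ ∈ PlusOn B then W β σ else 0) * (if η ∈ PlusOn B then W β η else 0) ≤
        (if σ ⊓ η ∈ PlusOn B then W β (σ ⊓ η) else 0) * (if σ ⊔ η ∈ PlusOn B then W β (σ ⊔ η) else 0)
      by_cases h1 : σ ∈ PlusOn B
      · by_cases h2 : η ∈ PlusOn B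
        · have h3 : σ ⊓ η ∈ PlusOn B := (hmem B _).2 fun x hx => by
            show σ x ⊓ η x = true
            rw [(hmem B σ).1 h1 x hx, (hmem B η).1 h2 x hx]
            rfl
          have h4 : σ ⊔ η ∈ PlusOn B := (hmem B _).2 fun x hx => by
            show σ x ⊔ η x = true
            rw [(hmem B σ).1 h1 x hx, (hmem B η).1 h2 x hx]
            rfl
          rw [if_pos h1, if_pos h2, if_pos h3, if_pos h4]
          exact FK_W β hβ σ η
        · rw [if_neg h2, mul_zero]
          refine mul_nonneg ?_ ?_ <;>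
          · split_ifs
            · exact (FK_pos β _).le
            · exact le_rfl
      · rw [if_neg h1, zero_mul]
        refine mul_nonneg ?_ ?_ <;>
        · split_ifs
          · exact (FK_pos β _).le
          · exact le_rfl)
  have e1 : ∀ g : Conf d n → ℝ, ∑ σ, (if σ ∈ PlusOn B then W β σ else 0) * g σ =
      ∑ σ ∈ PlusOn B, W β σ * g σ := by
    intro g
    rw [← sum_filter_add_sum_filter_not univ (fun σ => σ ∈ PlusOn B)]
    rw [sum_eq_zero (s := univ.filter fun σ => ¬ σ ∈ PlusOn B), add_zero]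
    · refine sum_congr (by ext; simp) fun σ hσ => ?_
      rw [if_pos hσ]
    · intro σ hσ
      rw [if_neg (mem_filter.1 hσ).2, zero_mul]
  have e2 : ∀ g : Conf d n → ℝ, ∑ σ ∈ PlusOn B, W β σ * (g σ * if σ ∈ PlusOn D then (1 : ℝ) else 0) =
      ∑ σ ∈ PlusOn D, W β σ * g σ := by
    intro g
    rw [← sum_subset hsub]
    · refine sum_congr rfl fun σ hσ => ?_
      rw [if_pos hσ, mul_one]
    · intro σ _ hσ
      rw [if_neg hσ, mul_zero, mul_zero]
  have e3 : ∑ σ : Conf d n, (if σ ∈ PlusOn B then W β σ else 0) = ∑ σ ∈ PlusOn B, W β σ := by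
    have h := e1 fun _ => 1
    simp only [mul_one] at h
    exact h
  have e4 : ∑ σ ∈ PlusOn B, W β σ * (if σ ∈ PlusOn D then (1 : ℝ) else 0) =
      ∑ σ ∈ PlusOn D, W β σ := by
    have h := e2 fun _ => 1
    simp only [one_mul, mul_one] at h
    exact h
  rw [e1, e1, e1, e2, e4, e3] at key
  have e5 : ∀ D : Finset (Site d n), ∑ σ ∈ PlusOn D, W β σ * (sg (σ v) + 1) =
      (∑ σ ∈ PlusOn D, W β σ * sg (σ v)) + ∑ σ ∈ PlusOn D, W β σ := by
    intro D
    rw [← sum_add_distrib]
    exact sum_congr rfl fun σ _ => by ring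
  rw [e5, e5] at key
  unfold ExD
  rw [div_le_div_iff₀ (FK_Z β B) (FK_Z β D)]
  linarith

end CU
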